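import Pool.Agent.FF6Rough.Rough

/-!
# MP_ff6db8_an : one small, uniformly Gateaux smooth perturbation destroys every Frechet point

There is a separable Banach space `X` with C*PCP dual such that for all `K` and all `ε > 0` some
`f : X → ℝ` has: `|f| ≤ ε`; `f` is Lipschitz; `f` is Gateaux differentiable everywhere, its
derivative in every direction is uniformly continuous on `X` and the difference quotients converge
uniformly on `X`; and for EVERY `K`-Lipschitz `g : X → ℝ` (`g = 0` allowed) the sum `g + f` is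
nowhere Frechet differentiable, uniformly (the same radii at all points and for all `g`).
-/

set_option autoImplicit false

namespace Pool.Agent.Results.MP_ff6db8_an.SmallPerturbation

open Filter Topology

/-- The weak* topology of the dual of `X`: pointwise convergence on `X`. -/
@[reducible] def wStar (X : Type) [NormedAddCommGroup X] [NormedSpace ℝ X] : TopologicalSpace (X →L[ℝ] ℝ) :=
  TopologicalSpace.induced (fun (φ : X →L[ℝ] ℝ) (x : X) => φ x) Pi.topologicalSpace

/-- The dual of `X` has the C*PCP: every nonempty convex weak*-compact set `C` contains a point `φ`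
at which the relative weak* topology and the relative norm topology of `C` coincide. -/
def CStarPCP (X : Type) [NormedAddCommGroup X] [NormedSpace ℝ X] : Prop :=
  ∀ C : Set (X →L[ℝ] ℝ), C.Nonempty → Convex ℝ C → @IsCompact _ (wStar X) C →
    ∃ φ ∈ C,
      (∀ ε : ℝ, 0 < ε → ∃ U : Set (X →L[ℝ] ℝ), @IsOpen _ (wStar X) U ∧ φ ∈ U ∧
        ∀ ψ ∈ C, ψ ∈ U → ‖ψ - φ‖ < ε) ∧
      ∀ U : Set (X →L[ℝ] ℝ), @IsOpen _ (wStar X) U → φ ∈ U →
        ∃ ε : ℝ, 0 < ε ∧ ∀ ψ ∈ C, ‖ψ - φ‖ < ε → ψ ∈ U

theorem result :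
    ∃ (X : Type) (_ : NormedAddCommGroup X) (_ : NormedSpace ℝ X),
      CompleteSpace X ∧ TopologicalSpace.SeparableSpace X ∧ CStarPCP X ∧
      ∀ K ε : ℝ, 0 ≤ K → 0 < ε → ∃ (f : X → ℝ) (f' : X → X →L[ℝ] ℝ),
        (∀ x, |f x| ≤ ε) ∧
        (∀ x y, |f x - f y| ≤ 896 * (2 * K + 1) * ‖x - y‖) ∧
        (∀ x v, HasLineDerivAt ℝ f (f' x v) x v) ∧
        (∀ v, UniformContinuous fun x => f' x v) ∧
        (∀ (v : X) (η : ℝ), 0 < η → ∃ δ : ℝ, 0 < δ ∧ ∀ (x : X) (t : ℝ), |t| < δ →
          |f (x + t • v) - f x - t * f' x v| ≤ η * |t|) ∧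
        (∃ r : ℕ → ℝ, (∀ k, 0 < r k) ∧ Tendsto r atTop (𝓝 0) ∧
          ∀ g : X → ℝ, (∀ x y, |g x - g y| ≤ K * ‖x - y‖) → ∀ (k : ℕ) (x : X),
            ∃ h : X, ‖h‖ ≤ r k ∧
              r k ≤ |(g + f) (x + (2 : ℝ) • h) - 2 * (g + f) (x + h) + (g + f) x|) ∧
        ∀ g : X → ℝ, (∀ x y, |g x - g y| ≤ K * ‖x - y‖) →
          (∀ (x : X) (L : X →L[ℝ] ℝ) (δ : ℝ), 0 < δ → ∃ h : X, 0 < ‖h‖ ∧ ‖h‖ < δ ∧
            ‖h‖ / 5 < |(g + f) (x + h) - (g + f) x - L h|) ∧
          ∀ x : X, ¬ DifferentiableAt ℝ (g + f) x := by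
  obtain ⟨P, S, hQ, hQ'⟩ := Pool.Agent.FF6Rough.exists_stage_uc
  obtain ⟨X, i1, i2, i3, i4, ι, hd, hι⟩ := Pool.Agent.MPff6db8.exists_space P
  obtain ⟨F, D, hlip, hbd, hder, huc, hrough⟩ := Pool.Agent.FF6Rough.exists_rough S hQ hQ' ι hd hι
  refine ⟨X, i1, i2, i3, i4, ?_, ?_⟩
  · intro C h1 h2 h3
    obtain ⟨φ, hφ, h4⟩ := Pool.Agent.MPff6db8.dual_pc ι hd hι C h1 h2 h3
    refine ⟨φ, hφ, fun ε hε => ?_, fun U hU hφU => ?_⟩
    · obtain ⟨U, hU, hφU, h5⟩ := h4 ε hε
      exact ⟨U, hU, hφU, fun ψ hψ hψU => h5 ψ ⟨hψU, hψ⟩⟩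
    · have h6 : IsOpen U := by
        obtain ⟨V, hV, rfl⟩ := hU
        refine hV.preimage ?_
        exact continuous_pi fun x => (ContinuousLinearMap.apply ℝ ℝ x).continuous
      obtain ⟨ε, hε, h7⟩ := Metric.isOpen_iff.1 h6 φ hφU
      exact ⟨ε, hε, fun ψ _ hψ => h7 (by rwa [Metric.mem_ball, dist_eq_norm])⟩
  · intro K ε hK hε
    set A : ℝ := 448 * (2 * K + 1) with hA
    have hA0 : 0 < A := by positivity
    have hη0 := S.η_pos 0
    -- the scaling factor
    set a : ℝ := 2 * A * S.η 0 / ε with ha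
    have ha0 : 0 < a := by positivity
    set f : X → ℝ := fun x => A * (a⁻¹ * F (a • x)) with hf
    have hfl : ∀ x y, |f x - f y| ≤ 896 * (2 * K + 1) * ‖x - y‖ := by
      intro x y
      have e : f x - f y = A * a⁻¹ * (F (a • x) - F (a • y)) := by simp only [hf]; ring
      rw [e, abs_mul, abs_of_pos (by positivity : 0 < A * a⁻¹)]
      have h1 := hlip (a • x) (a • y)
      rw [← smul_sub, norm_smul, Real.norm_of_nonneg ha0.le] at h1
      calc A * a⁻¹ * |F (a • x) - F (a • y)| ≤ A * a⁻¹ * (2 * (a * ‖x - y‖)) := by gcongr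
        _ = 896 * (2 * K + 1) * ‖x - y‖ := by rw [hA]; field_simp; ring
    have hfd : ∀ x v, HasLineDerivAt ℝ f ((A • D (a • x)) v) x v := by
      intro x v
      have h1 := hder (a • x) (a • v)
      unfold HasLineDerivAt at h1 ⊢
      have h2 := (h1.const_mul (A * a⁻¹))
      have e1 : (fun t : ℝ => f (x + t • v)) = fun t : ℝ => A * a⁻¹ * F (a • x + t • a • v) := by
        funext t
        simp only [hf]
        rw [smul_add, smul_comm a t v]
        ring
      rw [e1]
      refine h2.congr_deriv ?_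
      rw [map_smul, smul_eq_mul, ContinuousLinearMap.smul_apply, smul_eq_mul]
      field_simp
    have hfu : ∀ v, UniformContinuous fun x => (A • D (a • x)) v := by
      intro v
      have h1 : UniformContinuous fun x : X => a • x := uniformContinuous_const_smul a
      have h2 := ((huc v).comp h1).const_smul A
      refine (congrArg UniformContinuous (funext fun x => ?_)).mp h2
      simp [Function.comp]
    refine ⟨f, fun x => A • D (a • x), ?_, hfl, hfd, hfu, ?_, ?_⟩
    · intro x
      have e : f x = A * a⁻¹ * F (a • x) := by simp only [hf]; ring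
      rw [e, abs_mul, abs_of_pos (by positivity : 0 < A * a⁻¹)]
      calc A * a⁻¹ * |F (a • x)| ≤ A * a⁻¹ * (2 * S.η 0) := by gcongr; exact hbd _
        _ = ε := by rw [ha]; field_simp
    · -- uniform convergence of the difference quotients
      intro v η hη
      have h1 := hfu v
      rw [Metric.uniformContinuous_iff] at h1
      obtain ⟨δ, hδ, h2⟩ := h1 η hη
      refine ⟨δ / (‖v‖ + 1), by positivity, fun x t ht => ?_⟩
      have hv := norm_nonneg v
      have ht' : |t| * (‖v‖ + 1) < δ := by rwa [lt_div_iff₀ (by positivity)] at ht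
      set G : ℝ → ℝ := fun s => f (x + (s * t) • v) - s * (t * (A • D (a • x)) v) with hG
      have hG' : ∀ s : ℝ, HasDerivAt G (t * (A • D (a • (x + (s * t) • v))) v -
          t * (A • D (a • x)) v) s := by
        intro s
        have h3 := hfd (x + (s * t) • v) v
        unfold HasLineDerivAt at h3
        have h4 : HasDerivAt (fun s' : ℝ => (s' - s) * t) t s := by
          have := ((hasDerivAt_id s).sub_const s).mul_const t
          simpa using this
        have h5 : HasDerivAt (fun u : ℝ => f (x + (s * t) • v + u • v))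
            ((A • D (a • (x + (s * t) • v))) v) ((s - s) * t) := by
          rw [sub_self, zero_mul]
          exact h3
        have h6 := HasDerivAt.comp (h := fun s' : ℝ => (s' - s) * t)
          (h₂ := fun u : ℝ => f (x + (s * t) • v + u • v)) s h5 h4
        have h7 : HasDerivAt (fun s' : ℝ => s' * (t * (A • D (a • x)) v))
            (t * (A • D (a • x)) v) s := by
          have := (hasDerivAt_id s).mul_const (t * (A • D (a • x)) v)
          simpa using this
        have h8 := h6.sub h7
        have e : G = (fun u : ℝ => f (x + (s * t) • v + u • v)) ∘ (fun s' : ℝ => (s' - s) * t) -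
            fun s' : ℝ => s' * (t * (A • D (a • x)) v) := by
          funext s'
          simp only [hG, Function.comp, Pi.sub_apply]
          congr 2
          rw [add_assoc, ← add_smul]
          congr 2
          ring
        rw [e]
        refine h8.congr_deriv ?_
        ring
      have h9 := norm_image_sub_le_of_norm_deriv_le_segment_01' (f := G)
        (f' := fun s => t * (A • D (a • (x + (s * t) • v))) v - t * (A • D (a • x)) v)
        (C := η * |t|) (fun s _ => (hG' s).hasDerivWithinAt) (fun s hs => by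
          rw [← mul_sub, norm_mul, Real.norm_eq_abs, Real.norm_eq_abs, mul_comm]
          refine mul_le_mul_of_nonneg_right ?_ (abs_nonneg t)
          have h10 : dist (x + (s * t) • v) x < δ := by
            rw [dist_eq_norm, add_sub_cancel_left, norm_smul, Real.norm_eq_abs, abs_mul,
              abs_of_nonneg hs.1]
            have h11 : s * |t| * ‖v‖ ≤ 1 * |t| * ‖v‖ := by
              gcongr
              exact hs.2.le
            nlinarith [abs_nonneg t]
          have h12 := h2 h10
          rw [Real.dist_eq] at h12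
          exact h12.le)
      have e2 : G 1 - G 0 = f (x + t • v) - f x - t * (A • D (a • x)) v := by
        simp only [hG, one_mul, zero_mul, zero_smul, add_zero]
        ring
      rw [e2, Real.norm_eq_abs] at h9
      exact h9
    · -- roughness
      have hrg : ∀ g : X → ℝ, (∀ x y, |g x - g y| ≤ K * ‖x - y‖) → ∀ (k : ℕ) (x : X),
            ∃ h : X, ‖h‖ ≤ 56 * S.η k / a ∧
              56 * S.η k / a ≤
                |(g + f) (x + (2 : ℝ) • h) - 2 * (g + f) (x + h) + (g + f) x| := by
        intro g hg k x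
        obtain ⟨h, hh1, hh2⟩ := hrough k (a • x)
        have hηk := S.η_pos k
        have hn : ‖a⁻¹ • h‖ ≤ 56 * S.η k / a := by
          rw [norm_smul, Real.norm_of_nonneg (by positivity : 0 ≤ a⁻¹), inv_mul_eq_div]
          gcongr
        refine ⟨a⁻¹ • h, hn, ?_⟩
        have e1 : a • (x + (2 : ℝ) • a⁻¹ • h) = a • x + (2 : ℝ) • h := by
          rw [smul_add, smul_comm a (2 : ℝ), smul_inv_smul₀ ha0.ne']
        have e2 : a • (x + a⁻¹ • h) = a • x + h := by
          rw [smul_add, smul_inv_smul₀ ha0.ne']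
        have e3 : f (x + (2 : ℝ) • a⁻¹ • h) - 2 * f (x + a⁻¹ • h) + f x =
            A * a⁻¹ * (F (a • x + (2 : ℝ) • h) - 2 * F (a • x + h) + F (a • x)) := by
          simp only [hf]
          rw [e1, e2]
          ring
        have h3 : A * a⁻¹ * (S.η k / 8) ≤
            |f (x + (2 : ℝ) • a⁻¹ • h) - 2 * f (x + a⁻¹ • h) + f x| := by
          rw [e3, abs_mul, abs_of_pos (by positivity : 0 < A * a⁻¹)]
          gcongr
        have h4 : A * a⁻¹ * (S.η k / 8) = (2 * K + 1) * (56 * S.η k / a) := by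
          rw [hA]; field_simp; ring
        have h5 : |g (x + (2 : ℝ) • a⁻¹ • h) - 2 * g (x + a⁻¹ • h) + g x| ≤
            2 * K * (56 * S.η k / a) := by
          have g1 := hg (x + (2 : ℝ) • a⁻¹ • h) (x + a⁻¹ • h)
          have g2 := hg (x + a⁻¹ • h) x
          have e4 : x + (2 : ℝ) • a⁻¹ • h - (x + a⁻¹ • h) = a⁻¹ • h := by
            rw [two_smul]; abel
          rw [e4] at g1
          rw [add_sub_cancel_left] at g2
          have e5 : g (x + (2 : ℝ) • a⁻¹ • h) - 2 * g (x + a⁻¹ • h) + g x =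
            (g (x + (2 : ℝ) • a⁻¹ • h) - g (x + a⁻¹ • h)) - (g (x + a⁻¹ • h) - g x) := by ring
          rw [e5]
          refine (abs_sub _ _).trans ?_
          have h6 : K * ‖a⁻¹ • h‖ ≤ K * (56 * S.η k / a) := mul_le_mul_of_nonneg_left hn hK
          linarith
        have e6 : (g + f) (x + (2 : ℝ) • a⁻¹ • h) - 2 * (g + f) (x + a⁻¹ • h) + (g + f) x =
            (f (x + (2 : ℝ) • a⁻¹ • h) - 2 * f (x + a⁻¹ • h) + f x) +
            (g (x + (2 : ℝ) • a⁻¹ • h) - 2 * g (x + a⁻¹ • h) + g x) := by
          simp only [Pi.add_apply]; ring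
        rw [e6]
        rw [h4] at h3
        have h7 := abs_sub_abs_le_abs_sub (f (x + (2 : ℝ) • a⁻¹ • h) - 2 * f (x + a⁻¹ • h) + f x)
          (-(g (x + (2 : ℝ) • a⁻¹ • h) - 2 * g (x + a⁻¹ • h) + g x))
        rw [abs_neg, sub_neg_eq_add] at h7
        linarith
      have hr0 : ∀ k, 0 < 56 * S.η k / a := fun k => by
        have := S.η_pos k
        positivity
      have hrt : Tendsto (fun k => 56 * S.η k / a) atTop (𝓝 0) := by
        have h1 := ((S.eta_tendsto).const_mul 56).div_const a
        simpa using h1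
      have hfr : ∀ g : X → ℝ, (∀ x y, |g x - g y| ≤ K * ‖x - y‖) →
          ∀ (x : X) (L : X →L[ℝ] ℝ) (δ : ℝ), 0 < δ → ∃ h : X, 0 < ‖h‖ ∧ ‖h‖ < δ ∧
            ‖h‖ / 5 < |(g + f) (x + h) - (g + f) x - L h| := by
        intro g hg x L δ hδ
        obtain ⟨k, hk⟩ := (hrt.eventually (gt_mem_nhds (half_pos hδ))).exists
        obtain ⟨h, hh1, hh2⟩ := hrg g hg k x
        have hk0 := hr0 k
        have hne : h ≠ 0 := by
          rintro rfl
          rw [smul_zero, add_zero] at hh2
          have : (g + f) x - 2 * (g + f) x + (g + f) x = 0 := by ring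
          rw [this, abs_zero] at hh2
          linarith
        have hh0 : 0 < ‖h‖ := norm_pos_iff.2 hne
        by_contra hcon
        push Not at hcon
        have c1 := hcon h hh0 (by linarith)
        have hn2 : ‖(2 : ℝ) • h‖ = 2 * ‖h‖ := by
          rw [norm_smul]; norm_num
        have c2 := hcon ((2 : ℝ) • h) (by rw [hn2]; linarith) (by rw [hn2]; linarith)
        rw [hn2, map_smul, smul_eq_mul] at c2
        have e : (g + f) (x + (2 : ℝ) • h) - 2 * (g + f) (x + h) + (g + f) x =
            ((g + f) (x + (2 : ℝ) • h) - (g + f) x - 2 * L h) -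
              2 * ((g + f) (x + h) - (g + f) x - L h) := by ring
        have c3 : |(g + f) (x + (2 : ℝ) • h) - 2 * (g + f) (x + h) + (g + f) x| ≤
            2 * ‖h‖ / 5 + 2 * (‖h‖ / 5) := by
          rw [e]
          refine (abs_sub _ _).trans ?_
          rw [abs_mul, abs_two]
          linarith
        linarith
      refine ⟨⟨fun k => 56 * S.η k / a, hr0, hrt, hrg⟩, fun g hg => ⟨hfr g hg, fun x hx => ?_⟩⟩
      have h1 := hx.hasFDerivAt
      rw [hasFDerivAt_iff_isLittleO_nhds_zero, Asymptotics.isLittleO_iff] at h1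
      have h2 := h1 (show (0 : ℝ) < 1 / 5 by norm_num)
      rw [Metric.eventually_nhds_iff] at h2
      obtain ⟨δ, hδ, h2⟩ := h2
      obtain ⟨h, hh0, hh1, hh2⟩ := hfr g hg x (fderiv ℝ (g + f) x) δ hδ
      have h3 := h2 (y := h) (by simpa using hh1)
      rw [Real.norm_eq_abs] at h3
      linarith

end Pool.Agent.Results.MP_ff6db8_an.SmallPerturbation
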